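import Pool.Agent.Run7.h615.MT.Kron
import Pool.Agent.Run7.h457.MT.Iface2

/-!
# Project MT457, piece P7: formal properties of `kun`
-/

set_option autoImplicit false

namespace Run7.h615.MT

open Matrix Filter Topology
open Run7.h457.MT

section near

variable {ℓ : ℕ} [Fact ℓ.Prime]

theorem prod_near {S : Type} [DecidableEq S] (s : Finset S) {ε : ℝ} (hε : 0 ≤ ε)
    (a b : S → ℚ_[ℓ]) (ha : ∀ i ∈ s, ‖a i‖ ≤ 1) (hb : ∀ i ∈ s, ‖b i‖ ≤ 1)
    (h : ∀ i ∈ s, ‖a i - b i‖ ≤ ε) : ‖∏ i ∈ s, a i - ∏ i ∈ s, b i‖ ≤ ε := by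
  induction s using Finset.induction_on with
  | empty => simpa using hε
  | insert i s hi ih =>
    have h1 := ih (fun k hk => ha k (Finset.mem_insert_of_mem hk))
      (fun k hk => hb k (Finset.mem_insert_of_mem hk))
      (fun k hk => h k (Finset.mem_insert_of_mem hk))
    rw [Finset.prod_insert hi, Finset.prod_insert hi]
    have e : a i * ∏ k ∈ s, a k - b i * ∏ k ∈ s, b k =
        a i * (∏ k ∈ s, a k - ∏ k ∈ s, b k) + (a i - b i) * ∏ k ∈ s, b k := by ring
    rw [e]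
    refine (Padic.nonarchimedean _ _).trans (max_le ?_ ?_)
    · rw [norm_mul]
      calc ‖a i‖ * ‖∏ k ∈ s, a k - ∏ k ∈ s, b k‖ ≤ 1 * ε :=
            mul_le_mul (ha i (Finset.mem_insert_self i s)) h1 (norm_nonneg _) zero_le_one
        _ = ε := one_mul ε
    · rw [norm_mul]
      have h2 : ‖∏ k ∈ s, b k‖ ≤ 1 := by
        rw [norm_prod]
        exact Finset.prod_le_one (fun k _ => norm_nonneg _)
          fun k hk => hb k (Finset.mem_insert_of_mem hk)
      calc ‖a i - b i‖ * ‖∏ k ∈ s, b k‖ ≤ ε * 1 :=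
            mul_le_mul (h i (Finset.mem_insert_self i s)) h2 (norm_nonneg _) hε
        _ = ε := mul_one ε

theorem norm_one_entry {κ : Type} [DecidableEq κ] (i j : κ) :
    ‖(1 : Matrix κ κ ℚ_[ℓ]) i j‖ ≤ 1 := by
  rw [Matrix.one_apply]
  split_ifs
  · rw [norm_one]
  · rw [norm_zero]
    exact zero_le_one

theorem kron_near {S : Type} [Fintype S] [DecidableEq S] {I : S → Type} [∀ s, Fintype (I s)]
    [∀ s, DecidableEq (I s)] (N : ℕ) (A : ∀ s, Matrix (I s) (I s) ℚ_[ℓ])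
    (h : ∀ s, NearOne N (A s)) : NearOne N (kron A) := by
  have hℓ : (1 : ℝ) ≤ (ℓ : ℝ) := by exact_mod_cast (Fact.out : ℓ.Prime).one_lt.le
  have hε : ((ℓ : ℝ) ^ N)⁻¹ ≤ 1 := inv_le_one_of_one_le₀ (one_le_pow₀ hℓ)
  intro u v
  rw [← kron_one, Matrix.sub_apply]
  refine prod_near Finset.univ (by positivity) _ _ (fun s _ => ?_) (fun s _ => norm_one_entry _ _)
    (fun s _ => h s (u s) (v s))
  have e : A s (u s) (v s) = (A s - 1) (u s) (v s) + (1 : Matrix (I s) (I s) ℚ_[ℓ]) (u s) (v s) := by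
    rw [Matrix.sub_apply, sub_add_cancel]
  rw [e]
  exact (Padic.nonarchimedean _ _).trans
    (max_le ((h s _ _).trans hε) (norm_one_entry _ _))

end near

section block

variable {K : Type} [Fintype K] [DecidableEq K] {I : K → Type} [∀ k, Fintype (I k)]
  [∀ k, DecidableEq (I k)] {ℓ : ℕ} [Fact ℓ.Prime]

theorem block_log (A L : ∀ k, Matrix (I k) (I k) ℚ_[ℓ]) (h : ∀ k, IsLog (A k) (L k)) :
    IsLog (Matrix.blockDiagonal' A) (Matrix.blockDiagonal' L) := by
  have h1 : Tendsto (fun (n : ℕ) k => ((ℓ : ℚ_[ℓ]) ^ n)⁻¹ • (A k ^ ℓ ^ n - 1)) atTop (𝓝 L) :=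
    tendsto_pi_nhds.2 h
  have h2 : Continuous fun M : ∀ k, Matrix (I k) (I k) ℚ_[ℓ] => Matrix.blockDiagonal' M :=
    Continuous.matrix_blockDiagonal' continuous_id
  refine ((h2.tendsto L).comp h1).congr fun n => ?_
  show Matrix.blockDiagonal' (((ℓ : ℚ_[ℓ]) ^ n)⁻¹ • (A ^ ℓ ^ n - 1)) = _
  rw [Matrix.blockDiagonal'_smul, Matrix.blockDiagonal'_sub, Matrix.blockDiagonal'_pow,
    Matrix.blockDiagonal'_one]

theorem block_near (N : ℕ) (A : ∀ k, Matrix (I k) (I k) ℚ_[ℓ]) (h : ∀ k, NearOne N (A k)) :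
    NearOne N (Matrix.blockDiagonal' A) := by
  rintro ⟨k, u⟩ ⟨k', v⟩
  rw [← Matrix.blockDiagonal'_one, ← Matrix.blockDiagonal'_sub]
  by_cases hk : k = k'
  · subst hk
    rw [Matrix.blockDiagonal'_apply_eq]
    exact h k u v
  · rw [Matrix.blockDiagonal'_apply_ne _ _ _ hk, norm_zero]
    positivity

end block

theorem t_KUN : S_KUN := by
  intro S _ _ n d i
  have hle : ∀ (a : KIdx d i) (s : S), (a.1 s : ℕ) ≤ d s := fun a s => Nat.lt_succ_iff.1 (a.1 s).2
  refine ⟨?_, ?_, ?_⟩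
  · intro F _ A B
    refine ⟨?_, ?_, ?_⟩
    · unfold kun
      rw [← Matrix.blockDiagonal'_mul]
      congr 1
      funext a
      exact kron_mul _ _
    · unfold kun
      rw [← Matrix.blockDiagonal'_one]
      congr 1
      funext a
      exact kron_one
    · unfold dkun
      rw [← Matrix.blockDiagonal'_mul, ← Matrix.blockDiagonal'_mul, ← Matrix.blockDiagonal'_sub]
      congr 1
      funext a
      exact klie _ _
  · intro ℓ _ A L h
    exact block_log _ _ fun a => klog _ _ fun s => h s _ (hle a s)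
  · intro ℓ _ N A h
    exact block_near N _ fun a => kron_near N _ fun s => h s _ (hle a s)

end Run7.h615.MT
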