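import Pool.Agent.Run7.h615.MT.Kron
import Pool.Agent.Run7.h457.MT.Iface

/-!
# Project MT457, piece P6
-/

set_option autoImplicit false

namespace Run7.h615.MT

open Matrix Filter Topology
open Run7.h457.MT

theorem t_DETLIM : S_DETLIM := by
  intro F _ _ _ κ _ _ t M L ht0 ht h
  exact detlim t M L ht0 ht h

variable (S : Type) [Fintype S] [DecidableEq S] (I : S → Type) [∀ s, Fintype (I s)]
  [∀ s, DecidableEq (I s)]

theorem t_KMUL : S_KMUL S I := by
  intro F _ A B
  exact ⟨kron_mul A B, kron_one⟩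

theorem t_KLOG : S_KLOG S I := by
  intro ℓ _ A L h
  exact klog A L h

theorem t_KLIE : S_KLIE S I := by
  intro F _ L M
  exact klie L M

theorem t_KLIN : S_KLIN S I := by
  intro F F' _ _ φ L M c
  exact klin φ L M c

theorem t_KHOD : S_KHOD S I := by
  intro i V
  refine ⟨khod_mul i V, khod_sum i V, khod_h i V, ?_, ?_⟩
  · have h1 : (fun s => (V s).D) = fun s => ∑ p : Fin (i s + 1), ((p : ℕ) : ℂ) • (V s).e p := by
      funext s
      unfold HodgeStr.D
      rw [Fin.sum_univ_eq_sum_range (fun p => (p : ℂ) • (V s).e p)]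
    rw [h1, khod_D i V (fun s p => ((p : ℕ) : ℂ))]
    refine Finset.sum_congr rfl fun c _ => ?_
    congr 1
    push_cast
    rfl
  · have h1 : (fun s => (V s).D') = fun s => ∑ p : Fin (i s + 1),
        ((i s - (p : ℕ) : ℕ) : ℂ) • (V s).e p := by
      funext s
      unfold HodgeStr.D'
      rw [Fin.sum_univ_eq_sum_range (fun p => ((i s - p : ℕ) : ℂ) • (V s).e p)]
    rw [h1, khod_D i V (fun s p => ((i s - (p : ℕ) : ℕ) : ℂ))]
    refine Finset.sum_congr rfl fun c _ => ?_
    congr 1
    push_cast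
    rfl

end Run7.h615.MT
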