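import Pool.Agent.Run7.h615.MT.Common
import Pool.Agent.Run7.h615.MT.P6

/-!
# Project MT457, piece P8: the Mumford-Tate conjecture for all products
-/

set_option autoImplicit false

namespace Run7.h615.MT

open Matrix Filter Topology
open Run7.h457.MT
open Run7.h475.MT (t_SPAN t_LIE ext_map ext_rat)

noncomputable section

/-! ## The projections to the pieces of the Hodge decomposition of the product -/

section hodgeE

variable {S : Type} [Fintype S] [DecidableEq S] {n : S → ℕ → ℕ} (d : S → ℕ) (i : ℕ)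
  (V : ∀ s j, HodgeStr j (Fin (n s j)))

/-- The index set of the pieces. -/
abbrev CIdx : Type := Σ a : KIdx d i, ∀ s, Fin ((a.1 s : ℕ) + 1)

/-- The projections. -/
def eK (c : CIdx d i) : Matrix (KTot n d i) (KTot n d i) ℂ :=
  Matrix.blockDiagonal' (Pi.single (M := fun a : KIdx d i =>
    Matrix (∀ s, Fin (n s (a.1 s))) (∀ s, Fin (n s (a.1 s))) ℂ) c.1
      (kron fun s => (V s (c.1.1 s)).e (c.2 s)))

theorem eK_mul (c c' : CIdx d i) :
    eK d i V c * eK d i V c' = if c = c' then eK d i V c else 0 := by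
  obtain ⟨a, u⟩ := c
  obtain ⟨b, v⟩ := c'
  unfold eK
  rw [← Matrix.blockDiagonal'_mul]
  by_cases hab : a = b
  · subst hab
    have h1 : (fun k : KIdx d i => (Pi.single (M := fun a : KIdx d i =>
        Matrix (∀ s, Fin (n s (a.1 s))) (∀ s, Fin (n s (a.1 s))) ℂ) a
          (kron fun s => (V s (a.1 s)).e (u s))) k *
        (Pi.single (M := fun a : KIdx d i =>
        Matrix (∀ s, Fin (n s (a.1 s))) (∀ s, Fin (n s (a.1 s))) ℂ) a
          (kron fun s => (V s (a.1 s)).e (v s))) k) =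
        Pi.single (M := fun a : KIdx d i =>
        Matrix (∀ s, Fin (n s (a.1 s))) (∀ s, Fin (n s (a.1 s))) ℂ) a
          (if u = v then kron (fun s => (V s (a.1 s)).e (u s)) else 0) := by
      rw [← khod_mul (fun s => (a.1 s : ℕ)) (fun s => V s (a.1 s)) u v]
      funext k
      by_cases hk : k = a
      · subst hk
        rw [Pi.single_eq_same, Pi.single_eq_same, Pi.single_eq_same]
      · rw [Pi.single_eq_of_ne hk, Pi.single_eq_of_ne hk, Pi.single_eq_of_ne hk, zero_mul]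
    rw [h1]
    by_cases huv : u = v
    · subst huv
      rw [if_pos rfl, if_pos rfl]
    · rw [if_neg huv, if_neg, Pi.single_zero, Matrix.blockDiagonal'_zero]
      intro h
      exact huv (eq_of_heq (Sigma.mk.inj h).2)
  · rw [if_neg fun h => hab (Sigma.mk.inj h).1]
    rw [← Matrix.blockDiagonal'_zero]
    congr 1
    funext k
    by_cases hk : k = a
    · subst hk
      rw [Pi.single_eq_of_ne (M := fun a : KIdx d i =>
        Matrix (∀ s, Fin (n s (a.1 s))) (∀ s, Fin (n s (a.1 s))) ℂ) hab, mul_zero]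
      rfl
    · rw [Pi.single_eq_of_ne (M := fun a : KIdx d i =>
        Matrix (∀ s, Fin (n s (a.1 s))) (∀ s, Fin (n s (a.1 s))) ℂ) hk, zero_mul]
      rfl

theorem eK_sum (x : CIdx d i → ℂ) :
    ∑ c, x c • eK d i V c = Matrix.blockDiagonal' fun a : KIdx d i =>
      ∑ c : ∀ s, Fin ((a.1 s : ℕ) + 1), x ⟨a, c⟩ • kron fun s => (V s (a.1 s)).e (c s) := by
  rw [Fintype.sum_sigma]
  have h1 : ∀ a : KIdx d i, ∑ c : ∀ s, Fin ((a.1 s : ℕ) + 1), x ⟨a, c⟩ • eK d i V ⟨a, c⟩ =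
      Matrix.blockDiagonal'AddMonoidHom _ _ ℂ (Pi.single (M := fun a : KIdx d i =>
        Matrix (∀ s, Fin (n s (a.1 s))) (∀ s, Fin (n s (a.1 s))) ℂ) a
        (∑ c : ∀ s, Fin ((a.1 s : ℕ) + 1), x ⟨a, c⟩ • kron fun s => (V s (a.1 s)).e (c s))) := by
    intro a
    have h2 : ∀ c : ∀ s, Fin ((a.1 s : ℕ) + 1), x ⟨a, c⟩ • eK d i V ⟨a, c⟩ =
        Matrix.blockDiagonal'AddMonoidHom _ _ ℂ (AddMonoidHom.single (fun a : KIdx d i =>
        Matrix (∀ s, Fin (n s (a.1 s))) (∀ s, Fin (n s (a.1 s))) ℂ) a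
        (x ⟨a, c⟩ • kron fun s => (V s (a.1 s)).e (c s))) := by
      intro c
      unfold eK
      rw [← Matrix.blockDiagonal'_smul, AddMonoidHom.single_apply, Pi.single_smul]
      rfl
    rw [Finset.sum_congr rfl fun c _ => h2 c, ← map_sum, ← map_sum]
    rfl
  rw [Finset.sum_congr rfl fun a _ => h1 a, ← map_sum]
  show Matrix.blockDiagonal' _ = _
  congr 1
  exact Finset.univ_sum_single _

theorem eK_one : ∑ c, eK d i V c = 1 := by
  have h1 := eK_sum d i V fun _ => 1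
  simp only [one_smul] at h1
  rw [h1, ← Matrix.blockDiagonal'_one]
  congr 1
  funext a
  exact khod_sum (fun s => (a.1 s : ℕ)) (fun s => V s (a.1 s))

/-- The exponents. -/
def aK (c : CIdx d i) : ℤ := ∑ s, ((c.2 s : ℕ) : ℤ)

/-- The exponents. -/
def bK (c : CIdx d i) : ℤ := ∑ s, (((c.1.1 s : ℕ) - c.2 s : ℕ) : ℤ)

theorem eK_h (z : ℂ) (hz : z ≠ 0) : kun d i (fun s j => (V s j).h z) =
    ∑ c, (z ^ (-aK d i c) * starRingEnd ℂ z ^ (-bK d i c)) • eK d i V c := by
  rw [eK_sum]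
  unfold kun
  congr 1
  funext a
  exact (t_KHOD S (fun s => Fin (n s (a.1 s))) (fun s => (a.1 s : ℕ))
    (fun s => V s (a.1 s))).2.2.1 z hz

theorem eK_D : dkun d i (fun s j => (V s j).D) = ∑ c, (aK d i c : ℂ) • eK d i V c := by
  rw [eK_sum]
  unfold dkun
  congr 1
  funext a
  exact (t_KHOD S (fun s => Fin (n s (a.1 s))) (fun s => (a.1 s : ℕ))
    (fun s => V s (a.1 s))).2.2.2.1

theorem eK_D' : dkun d i (fun s j => (V s j).D') = ∑ c, (bK d i c : ℂ) • eK d i V c := by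
  rw [eK_sum]
  unfold dkun
  congr 1
  funext a
  exact (t_KHOD S (fun s => Fin (n s (a.1 s))) (fun s => (a.1 s : ℕ))
    (fun s => V s (a.1 s))).2.2.2.2

end hodgeE

section main

variable {T : Type} [Fintype T] [DecidableEq T] {d : T → ℕ} (B : ∀ t, LLV (d t))
  {S : Type} [Fintype S] [DecidableEq S] (τ : S → T) (i : ℕ) (W : ∀ t, (B t).Hodge)
  (hd : ∀ t, 2 ≤ d t) {ℓ : ℕ} [Fact ℓ.Prime] {Γ : Type} [Group Γ]
  (G : ∀ t i, Γ →* Matrix (Fin ((B t).n i)) (Fin ((B t).n i)) ℚ_[ℓ])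

/-- `ext` maps the span of rational matrices onto the span of their images. -/
theorem map_ratSpan {ι κ : Type} [Fintype ι] [DecidableEq ι] [Fintype κ] [DecidableEq κ]
    {F : Type} [Field F] [Algebra ℚ F] (R : Matrix ι ι ℚ →ₗ[ℚ] Matrix κ κ ℚ)
    (M : Submodule ℚ (Matrix ι ι ℚ)) :
    (ratSpan F (M : Set (Matrix ι ι ℚ))).map (ext F R) =
      ratSpan F ((M.map R : Submodule ℚ (Matrix κ κ ℚ)) : Set (Matrix κ κ ℚ)) := by
  unfold ratSpan
  rw [Submodule.map_span, Set.image_image, Submodule.map_coe, Set.image_image]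
  congr 1
  exact Set.image_congr fun x _ => ext_rat F R x

include hd in
/-- The Lie algebra of the image of the Galois group on `H^i` of the product. -/
theorem galLie_kun (hG : LogRel B G) (hM : MTTwo B W (fun t i σ => G t i σ)) :
    galLie (kunRep B G τ i) = ratSpan ℚ_[ℓ]
      (mtLie (dkun (n := fun s j => (B (τ s)).n j) (fun s => d (τ s)) i
          fun s j => ((W (τ s)).V j).D)
        (dkun (n := fun s j => (B (τ s)).n j) (fun s => d (τ s)) i
          fun s j => ((W (τ s)).V j).D') : Set _) := by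
  obtain ⟨Δ, hΔ, h⟩ := log_near B τ i G hd hG 0
  have h1 := galLie_finite (kunRep B G τ i) (kunRep_one B τ i G) (kunRep_mul B τ i G) Δ
  have h2 := galLie_finite (fun σ => Matrix.blockDiagonal' fun t => G t 2 σ)
    (by
      have h3 : (fun t => G t 2 (1 : Γ)) = 1 := by
        funext t
        exact map_one _
      show Matrix.blockDiagonal' (fun t => G t 2 (1 : Γ)) = 1
      rw [h3, Matrix.blockDiagonal'_one])
    (by
      intro σ σ'
      show Matrix.blockDiagonal' (fun t => G t 2 (σ * σ')) =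
        Matrix.blockDiagonal' (fun t => G t 2 σ) * Matrix.blockDiagonal' (fun t => G t 2 σ')
      rw [← Matrix.blockDiagonal'_mul]
      congr 1
      funext t
      exact map_mul _ _ _) Δ
  have h3 : {L | ∃ σ ∈ Δ, IsLog (kunRep B G τ i σ) L} = ext ℚ_[ℓ] (EE B τ i) ''
      {L | ∃ σ ∈ Δ, IsLog (Matrix.blockDiagonal' fun t => G t 2 σ) L} := by
    ext L'
    constructor
    · rintro ⟨σ, hσ, hL'⟩
      obtain ⟨-, -, L, hL, hL2⟩ := h σ hσ
      exact ⟨L, ⟨σ, hσ, hL⟩, log_unique hL2 hL'⟩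
    · rintro ⟨L1, ⟨σ, hσ, hL1⟩, rfl⟩
      obtain ⟨-, -, L, hL, hL2⟩ := h σ hσ
      rw [log_unique hL1 hL]
      exact ⟨σ, hσ, hL2⟩
  rw [h1, h3, ← Submodule.map_span, ← h2, hM, map_ratSpan,
    ← t_LIE (mm B) (EE B τ i) _ _ (mm_lie B) (EE_lie B τ i) (D_mem B W hd) (D'_mem B W hd),
    ext_EE_D B τ i W hd, ext_EE_D' B τ i W hd]

end main

/-- P8 from GSUP and GSUB. -/
theorem t_MTC (gsup : S_GSUP) (gsub : S_GSUB) : S_MTC := by
  intro ℓ _ Γ _ T _ _ d hd B W G hG hM S _ _ τ i ρ hρ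
  have hρ' : (fun σ => ρ σ) = kunRep B G τ i := funext hρ
  have h1 := galLie_kun B τ i W hd G hG hM
  have h2 : galLie ρ = ratSpan ℚ_[ℓ]
      (mtLie (dkun (n := fun s j => (B (τ s)).n j) (fun s => d (τ s)) i
          fun s j => ((W (τ s)).V j).D)
        (dkun (n := fun s j => (B (τ s)).n j) (fun s => d (τ s)) i
          fun s j => ((W (τ s)).V j).D') : Set _) := by
    rw [show (⇑ρ) = kunRep B G τ i from hρ']
    exact h1
  refine ⟨h2, fun g hg => ⟨fun hmon => ?_, fun hmt => ?_⟩⟩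
  · refine gsub ℓ _ Γ ρ _ (CIdx (fun s => d (τ s)) i) (aK (fun s => d (τ s)) i)
      (bK (fun s => d (τ s)) i)
      (eK (n := fun s j => (B (τ s)).n j) (fun s => d (τ s)) i fun s j => (W (τ s)).V j)
      (eK_mul _ _ _) (eK_one _ _ _) (fun z hz => eK_h _ _ _ z hz) ?_ ?_ g hg hmon
    · intro N
      obtain ⟨Δ, hΔ, h⟩ := log_near B τ i G hd hG N
      refine ⟨Δ, hΔ, fun σ hσ => ?_⟩
      rw [hρ]
      exact (h σ hσ).2.1
    · intro L hL
      rw [← eK_D, ← eK_D', ← h2]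
      exact hL
  · refine gsup ℓ _ Γ ρ _ (CIdx (fun s => d (τ s)) i) (aK (fun s => d (τ s)) i)
      (bK (fun s => d (τ s)) i)
      (eK (n := fun s j => (B (τ s)).n j) (fun s => d (τ s)) i fun s j => (W (τ s)).V j)
      (eK_mul _ _ _) (eK_one _ _ _) (fun z hz => eK_h _ _ _ z hz) ?_ g hg hmt
    intro x hx
    rw [← eK_D, ← eK_D'] at hx
    rw [h2]
    exact Submodule.subset_span ⟨x, hx, rfl⟩

end

end Run7.h615.MT
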