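import Pool.Agent.Run7.h457.MT.Defs

/-!
# Project MT457, piece P6: tensor products
-/

set_option autoImplicit false

namespace Run7.h615.MT

open Matrix Filter Topology
open Run7.h457.MT

section lim

variable {F : Type} [Field F] [TopologicalSpace F] [IsTopologicalRing F]

theorem prodlim {S : Type} [DecidableEq S] (s : Finset S) {t : ℕ → F} (ht0 : ∀ n, t n ≠ 0)
    (ht : Tendsto t atTop (𝓝 0)) (a : S → ℕ → F) (a0 b : S → F)
    (h : ∀ i ∈ s, Tendsto (fun n => (t n)⁻¹ * (a i n - a0 i)) atTop (𝓝 (b i))) :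
    Tendsto (fun n => (t n)⁻¹ * (∏ i ∈ s, a i n - ∏ i ∈ s, a0 i)) atTop
      (𝓝 (∑ i ∈ s, b i * ∏ k ∈ s.erase i, a0 k)) := by
  induction s using Finset.induction_on with
  | empty =>
    simp only [Finset.prod_empty, sub_self, mul_zero, Finset.sum_empty]
    exact tendsto_const_nhds
  | insert i s hi ih =>
    have h1 := ih fun k hk => h k (Finset.mem_insert_of_mem hk)
    have h2 := h i (Finset.mem_insert_self i s)
    have hP : Tendsto (fun n => ∏ k ∈ s, a k n) atTop (𝓝 (∏ k ∈ s, a0 k)) := by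
      have h3 : Tendsto (fun n => t n * ((t n)⁻¹ * (∏ i ∈ s, a i n - ∏ i ∈ s, a0 i)) +
          ∏ i ∈ s, a0 i) atTop
          (𝓝 (0 * (∑ i ∈ s, b i * ∏ k ∈ s.erase i, a0 k) + ∏ i ∈ s, a0 i)) :=
        (ht.mul h1).add tendsto_const_nhds
      rw [zero_mul, zero_add] at h3
      refine h3.congr fun n => ?_
      rw [mul_inv_cancel_left₀ (ht0 n), sub_add_cancel]
    have h4 : Tendsto (fun n => ((t n)⁻¹ * (a i n - a0 i)) * (∏ k ∈ s, a k n) +
        a0 i * ((t n)⁻¹ * (∏ i ∈ s, a i n - ∏ i ∈ s, a0 i))) atTop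
        (𝓝 (b i * (∏ k ∈ s, a0 k) + a0 i * ∑ i ∈ s, b i * ∏ k ∈ s.erase i, a0 k)) :=
      (h2.mul hP).add (tendsto_const_nhds.mul h1)
    have h5 : ∑ j ∈ insert i s, b j * ∏ k ∈ (insert i s).erase j, a0 k =
        b i * (∏ k ∈ s, a0 k) + a0 i * ∑ i ∈ s, b i * ∏ k ∈ s.erase i, a0 k := by
      rw [Finset.sum_insert hi, Finset.erase_insert hi, Finset.mul_sum]
      congr 1
      refine Finset.sum_congr rfl fun j hj => ?_
      have hij : i ≠ j := fun h => hi (h ▸ hj)
      rw [Finset.erase_insert_of_ne hij, Finset.prod_insert fun h => hi (Finset.mem_of_mem_erase h)]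
      ring
    rw [h5]
    refine h4.congr fun n => ?_
    rw [Finset.prod_insert hi, Finset.prod_insert hi]
    ring

theorem detlim {κ : Type} [Fintype κ] [DecidableEq κ] (t : ℕ → F) (M : ℕ → Matrix κ κ F)
    (L : Matrix κ κ F) (ht0 : ∀ n, t n ≠ 0) (ht : Tendsto t atTop (𝓝 0))
    (h : Tendsto (fun n => (t n)⁻¹ • (M n - 1)) atTop (𝓝 L)) :
    Tendsto (fun n => (t n)⁻¹ * ((M n).det - 1)) atTop (𝓝 L.trace) := by
  have hent : ∀ i j, Tendsto (fun n => (t n)⁻¹ * (M n i j - (1 : Matrix κ κ F) i j)) atTop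
      (𝓝 (L i j)) := by
    intro i j
    have h1 := (tendsto_pi_nhds.1 ((tendsto_pi_nhds.1 h) i)) j
    exact h1
  have h1 : ∀ σ : Equiv.Perm κ, Tendsto (fun n => ((Equiv.Perm.sign σ : ℤ) : F) *
      ((t n)⁻¹ * (∏ i, M n (σ i) i - ∏ i, (1 : Matrix κ κ F) (σ i) i))) atTop
      (𝓝 (((Equiv.Perm.sign σ : ℤ) : F) *
        ∑ i, L (σ i) i * ∏ k ∈ Finset.univ.erase i, (1 : Matrix κ κ F) (σ k) k)) := fun σ =>
    tendsto_const_nhds.mul (prodlim Finset.univ ht0 ht (fun i n => M n (σ i) i)
      (fun i => (1 : Matrix κ κ F) (σ i) i) (fun i => L (σ i) i) fun i _ => hent (σ i) i)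
  have h2 := tendsto_finsetSum Finset.univ fun σ (_ : σ ∈ Finset.univ) => h1 σ
  have h3 : ∑ σ : Equiv.Perm κ, ((Equiv.Perm.sign σ : ℤ) : F) *
      ∑ i, L (σ i) i * ∏ k ∈ Finset.univ.erase i, (1 : Matrix κ κ F) (σ k) k = L.trace := by
    rw [Finset.sum_eq_single (1 : Equiv.Perm κ)]
    · rw [Equiv.Perm.sign_one, Units.val_one, Int.cast_one, one_mul, Matrix.trace]
      refine Finset.sum_congr rfl fun i _ => ?_
      rw [Finset.prod_eq_one, mul_one]
      · rfl
      · intro k _
        exact Matrix.one_apply_eq k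
    · intro σ _ hσ
      rw [Finset.sum_eq_zero, mul_zero]
      intro i _
      obtain ⟨k, hki, hk⟩ : ∃ k, k ≠ i ∧ σ k ≠ k := by
        by_contra hcon
        push Not at hcon
        apply hσ
        have hi : σ i = i := by
          by_contra hne
          have h4 := hcon (σ i) hne
          exact hne (σ.injective h4)
        ext k
        by_cases hk : k = i
        · rw [hk, hi]
          rfl
        · rw [hcon k hk]
          rfl
      have h5 : ∏ k ∈ Finset.univ.erase i, (1 : Matrix κ κ F) (σ k) k = 0 :=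
        Finset.prod_eq_zero (i := k) (Finset.mem_erase.2 ⟨hki, Finset.mem_univ k⟩)
          (Matrix.one_apply_ne hk)
      rw [h5, mul_zero]
    · intro h
      exact absurd (Finset.mem_univ _) h
  rw [h3] at h2
  refine h2.congr fun n => ?_
  have h4 : (1 : F) = (1 : Matrix κ κ F).det := Matrix.det_one.symm
  rw [h4, Matrix.det_apply', Matrix.det_apply', ← Finset.sum_sub_distrib, Finset.mul_sum]
  refine Finset.sum_congr rfl fun σ _ => ?_
  ring

end lim

section kron

variable {S : Type} [Fintype S] [DecidableEq S] {I : S → Type} [∀ s, Fintype (I s)]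
  [∀ s, DecidableEq (I s)] {F : Type} [Field F]

theorem kron_mul (A B : ∀ s, Matrix (I s) (I s) F) :
    kron A * kron B = kron (fun s => A s * B s) := by
  ext u v
  rw [Matrix.mul_apply]
  show ∑ w : ∀ s, I s, (∏ s, A s (u s) (w s)) * (∏ s, B s (w s) (v s)) =
    ∏ s, (A s * B s) (u s) (v s)
  have h1 : ∏ s, (A s * B s) (u s) (v s) = ∏ s, ∑ x, A s (u s) x * B s x (v s) := rfl
  rw [h1, Finset.prod_univ_sum, Fintype.piFinset_univ]
  refine Finset.sum_congr rfl fun w _ => ?_
  rw [← Finset.prod_mul_distrib]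

theorem kron_one : kron (fun s => (1 : Matrix (I s) (I s) F)) = 1 := by
  ext u v
  show ∏ s, (1 : Matrix (I s) (I s) F) (u s) (v s) = (1 : Matrix _ _ F) u v
  by_cases h : u = v
  · subst h
    rw [Matrix.one_apply_eq]
    exact Finset.prod_eq_one fun s _ => Matrix.one_apply_eq _
  · rw [Matrix.one_apply_ne h]
    obtain ⟨s, hs⟩ := Function.ne_iff.1 h
    exact Finset.prod_eq_zero (Finset.mem_univ s) (Matrix.one_apply_ne hs)

theorem kron_pow (A : ∀ s, Matrix (I s) (I s) F) (n : ℕ) :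
    kron A ^ n = kron (fun s => A s ^ n) := by
  induction n with
  | zero =>
    simp only [pow_zero]
    exact kron_one.symm
  | succ n ih => simp only [pow_succ, ih, kron_mul]

/-- The factor `s` of the tensor product. -/
theorem kron_update_apply (s : S) (A : Matrix (I s) (I s) F) (u v : ∀ s, I s) :
    kron (Function.update (fun s => (1 : Matrix (I s) (I s) F)) s A) u v =
      A (u s) (v s) * ∏ k ∈ Finset.univ.erase s, (1 : Matrix (I k) (I k) F) (u k) (v k) := by
  show ∏ k, Function.update (fun s => (1 : Matrix (I s) (I s) F)) s A k (u k) (v k) = _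
  rw [← Finset.mul_prod_erase _ _ (Finset.mem_univ s), Function.update_self]
  congr 1
  refine Finset.prod_congr rfl fun k hk => ?_
  rw [Function.update_of_ne (Finset.ne_of_mem_erase hk)]

theorem dkron_apply (L : ∀ s, Matrix (I s) (I s) F) (u v : ∀ s, I s) :
    dkron L u v = ∑ s, L s (u s) (v s) *
      ∏ k ∈ Finset.univ.erase s, (1 : Matrix (I k) (I k) F) (u k) (v k) := by
  unfold dkron
  rw [Matrix.sum_apply]
  exact Finset.sum_congr rfl fun s _ => kron_update_apply s (L s) u v

theorem klog {ℓ : ℕ} [Fact ℓ.Prime] (A L : ∀ s, Matrix (I s) (I s) ℚ_[ℓ])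
    (h : ∀ s, IsLog (A s) (L s)) : IsLog (kron A) (dkron L) := by
  have hℓ : (ℓ : ℚ_[ℓ]) ≠ 0 := Nat.cast_ne_zero.2 (Fact.out : ℓ.Prime).ne_zero
  have ht : Tendsto (fun n : ℕ => (ℓ : ℚ_[ℓ]) ^ n) atTop (𝓝 0) := by
    apply tendsto_pow_atTop_nhds_zero_of_norm_lt_one
    exact Padic.norm_p_lt_one
  refine tendsto_pi_nhds.2 fun u => tendsto_pi_nhds.2 fun v => ?_
  have h1 := prodlim Finset.univ (t := fun n : ℕ => (ℓ : ℚ_[ℓ]) ^ n) (fun n => pow_ne_zero n hℓ)
    ht (fun s n => (A s ^ ℓ ^ n) (u s) (v s)) (fun s => (1 : Matrix (I s) (I s) ℚ_[ℓ]) (u s) (v s))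
    (fun s => L s (u s) (v s)) (fun s _ => by
      have h2 := (tendsto_pi_nhds.1 ((tendsto_pi_nhds.1 (h s)) (u s))) (v s)
      exact h2)
  rw [dkron_apply]
  refine h1.congr fun n => ?_
  show _ = (((ℓ : ℚ_[ℓ]) ^ n)⁻¹ • (kron A ^ ℓ ^ n - 1)) u v
  rw [kron_pow, ← kron_one]
  rfl

/-- The factor `s`. -/
noncomputable def fac (s : S) (A : Matrix (I s) (I s) F) : Matrix (∀ s, I s) (∀ s, I s) F :=
  kron (Function.update (fun s => (1 : Matrix (I s) (I s) F)) s A)

theorem fac_mul (s : S) (A B : Matrix (I s) (I s) F) : fac s A * fac s B = fac s (A * B) := by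
  unfold fac
  rw [kron_mul]
  congr 1
  funext k
  by_cases hk : k = s
  · subst hk
    rw [Function.update_self, Function.update_self, Function.update_self]
  · rw [Function.update_of_ne hk, Function.update_of_ne hk, Function.update_of_ne hk, mul_one]

theorem fac_comm {s s' : S} (h : s ≠ s') (A : Matrix (I s) (I s) F)
    (B : Matrix (I s') (I s') F) : fac s A * fac s' B = fac s' B * fac s A := by
  unfold fac
  rw [kron_mul, kron_mul]
  congr 1
  funext k
  by_cases hk : k = s
  · subst hk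
    rw [Function.update_self, Function.update_of_ne h, mul_one, one_mul]
  · rw [Function.update_of_ne hk, one_mul, mul_one]

theorem fac_sub (s : S) (A B : Matrix (I s) (I s) F) : fac s (A - B) = fac s A - fac s B := by
  ext u v
  unfold fac
  rw [Matrix.sub_apply, kron_update_apply, kron_update_apply, kron_update_apply, Matrix.sub_apply]
  ring

theorem dkron_eq (L : ∀ s, Matrix (I s) (I s) F) : dkron L = ∑ s, fac s (L s) := rfl

theorem klie (L M : ∀ s, Matrix (I s) (I s) F) :
    dkron (fun s => L s * M s - M s * L s) = dkron L * dkron M - dkron M * dkron L := by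
  rw [dkron_eq, dkron_eq, dkron_eq, Finset.sum_mul_sum, Finset.sum_mul_sum, Finset.sum_comm
    (f := fun i j => fac i (M i) * fac j (L j)), ← Finset.sum_sub_distrib]
  refine Finset.sum_congr rfl fun s _ => ?_
  rw [← Finset.sum_sub_distrib, Finset.sum_eq_single s]
  · rw [fac_mul, fac_mul, fac_sub]
  · intro s' _ hs'
    rw [fac_comm (Ne.symm hs'), sub_self]
  · intro h
    exact absurd (Finset.mem_univ _) h

theorem klin {F' : Type} [Field F'] (φ : F →+* F') (L M : ∀ s, Matrix (I s) (I s) F) (c : F) :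
    dkron (fun s => L s + M s) = dkron L + dkron M ∧ dkron (fun s => c • L s) = c • dkron L ∧
    (dkron L).map φ = dkron (fun s => (L s).map φ) ∧
    (kron L).map φ = kron (fun s => (L s).map φ) := by
  have h1 : ∀ (k : S) (i j : I k), φ ((1 : Matrix (I k) (I k) F) i j) =
      (1 : Matrix (I k) (I k) F') i j := by
    intro k i j
    rw [Matrix.one_apply, Matrix.one_apply]
    split_ifs
    · exact map_one φ
    · exact map_zero φ
  refine ⟨?_, ?_, ?_, ?_⟩
  · ext u v
    rw [Matrix.add_apply, dkron_apply, dkron_apply, dkron_apply, ← Finset.sum_add_distrib]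
    refine Finset.sum_congr rfl fun s _ => ?_
    rw [Matrix.add_apply]
    ring
  · ext u v
    rw [Matrix.smul_apply, dkron_apply, dkron_apply, smul_eq_mul, Finset.mul_sum]
    refine Finset.sum_congr rfl fun s _ => ?_
    rw [Matrix.smul_apply, smul_eq_mul]
    ring
  · ext u v
    rw [Matrix.map_apply, dkron_apply, dkron_apply, map_sum]
    refine Finset.sum_congr rfl fun s _ => ?_
    rw [map_mul, map_prod, Matrix.map_apply]
    congr 1
    exact Finset.prod_congr rfl fun k _ => h1 k _ _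
  · ext u v
    show φ (∏ s, L s (u s) (v s)) = ∏ s, (L s).map φ (u s) (v s)
    rw [map_prod]
    rfl

theorem kron_sum {P : S → Type} [∀ s, Fintype (P s)] (x : ∀ s, P s → F)
    (e : ∀ s, P s → Matrix (I s) (I s) F) :
    kron (fun s => ∑ p, x s p • e s p) = ∑ c : ∀ s, P s, (∏ s, x s (c s)) •
      kron (fun s => e s (c s)) := by
  ext u v
  show ∏ s, (∑ p, x s p • e s p) (u s) (v s) = _
  have h1 : ∀ s, (∑ p, x s p • e s p) (u s) (v s) = ∑ p, x s p * e s p (u s) (v s) := by
    intro s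
    rw [Matrix.sum_apply]
    rfl
  rw [Finset.prod_congr rfl fun s _ => h1 s, Finset.prod_univ_sum, Fintype.piFinset_univ,
    Matrix.sum_apply]
  refine Finset.sum_congr rfl fun c _ => ?_
  rw [Finset.prod_mul_distrib, Matrix.smul_apply, smul_eq_mul]
  rfl

theorem kron_zero {A : ∀ s, Matrix (I s) (I s) F} (s : S) (h : A s = 0) : kron A = 0 := by
  ext u v
  show ∏ s, A s (u s) (v s) = 0
  exact Finset.prod_eq_zero (Finset.mem_univ s) (by rw [h]; rfl)

end kron

section hodge

variable {S : Type} [Fintype S] [DecidableEq S] {I : S → Type} [∀ s, Fintype (I s)]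
  [∀ s, DecidableEq (I s)] (i : S → ℕ) (V : ∀ s, HodgeStr (i s) (I s))

theorem khod_mul (c c' : ∀ s, Fin (i s + 1)) :
    kron (fun s => (V s).e (c s)) * kron (fun s => (V s).e (c' s)) =
      if c = c' then kron (fun s => (V s).e (c s)) else 0 := by
  rw [kron_mul]
  split_ifs with h
  · subst h
    congr 1
    funext s
    rw [(V s).mul _ (Nat.lt_succ_iff.1 (c s).2) _ (Nat.lt_succ_iff.1 (c s).2), if_pos rfl]
  · obtain ⟨s, hs⟩ := Function.ne_iff.1 h
    apply kron_zero s
    rw [(V s).mul _ (Nat.lt_succ_iff.1 (c s).2) _ (Nat.lt_succ_iff.1 (c' s).2),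
      if_neg fun h => hs (Fin.ext h)]

theorem sum_e (s : S) : ∑ p : Fin (i s + 1), (1 : ℂ) • (V s).e p = 1 := by
  simp only [one_smul]
  rw [Fin.sum_univ_eq_sum_range (fun p => (V s).e p), (V s).sum]

theorem khod_sum : ∑ c : ∀ s, Fin (i s + 1), kron (fun s => (V s).e (c s)) = 1 := by
  have h1 := kron_sum (F := ℂ) (fun s (_ : Fin (i s + 1)) => (1 : ℂ))
    (fun s (p : Fin (i s + 1)) => (V s).e p)
  have h2 : (fun s => ∑ p : Fin (i s + 1), (1 : ℂ) • (V s).e p) =
      fun s => (1 : Matrix (I s) (I s) ℂ) := funext fun s => sum_e i V s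
  rw [h2, kron_one] at h1
  simp only [Finset.prod_const_one, one_smul] at h1
  exact h1.symm

theorem khod_h (z : ℂ) (hz : z ≠ 0) : kron (fun s => (V s).h z) = ∑ c : ∀ s, Fin (i s + 1),
    (z ^ (-∑ s, ((c s : ℕ) : ℤ)) * starRingEnd ℂ z ^ (-∑ s, ((i s - c s : ℕ) : ℤ))) •
      kron (fun s => (V s).e (c s)) := by
  have hz' : starRingEnd ℂ z ≠ 0 := (map_ne_zero _).2 hz
  have h1 : (fun s => (V s).h z) = fun s => ∑ p : Fin (i s + 1),
      (z ^ (p : ℕ) * starRingEnd ℂ z ^ (i s - (p : ℕ)))⁻¹ • (V s).e p := by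
    funext s
    unfold HodgeStr.h
    rw [Fin.sum_univ_eq_sum_range (fun p => (z ^ p * starRingEnd ℂ z ^ (i s - p))⁻¹ • (V s).e p)]
  rw [h1, kron_sum (fun s (p : Fin (i s + 1)) =>
    (z ^ (p : ℕ) * starRingEnd ℂ z ^ (i s - (p : ℕ)))⁻¹) (fun s (p : Fin (i s + 1)) => (V s).e p)]
  refine Finset.sum_congr rfl fun c _ => ?_
  congr 1
  rw [Finset.prod_inv_distrib, Finset.prod_mul_distrib, mul_inv, Finset.prod_pow_eq_pow_sum,
    Finset.prod_pow_eq_pow_sum, _root_.zpow_neg, _root_.zpow_neg]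
  congr 2
  · rw [← Nat.cast_sum, zpow_natCast]
  · rw [← Nat.cast_sum, zpow_natCast]

theorem khod_D (d : ∀ s, Fin (i s + 1) → ℂ) :
    dkron (fun s => ∑ p : Fin (i s + 1), d s p • (V s).e p) = ∑ c : ∀ s, Fin (i s + 1),
      (∑ s, d s (c s)) • kron (fun s => (V s).e (c s)) := by
  have key : ∀ s, kron (Function.update (fun s => (1 : Matrix (I s) (I s) ℂ)) s
      (∑ p : Fin (i s + 1), d s p • (V s).e p)) =
      ∑ c : ∀ s, Fin (i s + 1), d s (c s) • kron (fun s => (V s).e (c s)) := by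
    intro s
    have h2 : Function.update (fun s => (1 : Matrix (I s) (I s) ℂ)) s
        (∑ p : Fin (i s + 1), d s p • (V s).e p) = fun k => ∑ p : Fin (i k + 1),
          (if k = s then d k p else 1) • (V k).e p := by
      funext k
      by_cases hk : k = s
      · subst hk
        rw [Function.update_self]
        simp
      · rw [Function.update_of_ne hk]
        simp only [if_neg hk]
        exact (sum_e i V k).symm
    rw [h2, kron_sum (fun k (p : Fin (i k + 1)) => if k = s then d k p else 1)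
      (fun k (p : Fin (i k + 1)) => (V k).e p)]
    refine Finset.sum_congr rfl fun c _ => ?_
    congr 1
    rw [Finset.prod_ite_eq' Finset.univ s (fun k => d k (c k)), if_pos (Finset.mem_univ s)]
  show ∑ s, kron (Function.update (fun s => (1 : Matrix (I s) (I s) ℂ)) s
      (∑ p : Fin (i s + 1), d s p • (V s).e p)) = _
  rw [Finset.sum_congr rfl fun s _ => key s, Finset.sum_comm]
  refine Finset.sum_congr rfl fun c _ => ?_
  rw [Finset.sum_smul]

end hodge

end Run7.h615.MT
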