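import Pool.Agent.R918.Weyl
import Pool.Agent.N184.HK.P_PERF

/-!
# Project MT457, piece P2: representations of `so(V, q)` are semisimple
-/

set_option autoImplicit false

namespace Run7.h615.MT

open Module
open Pool.Agent.N184.HK (Skew)
open Pool.Agent.N184.HK.P_PERF (E E_apply E_skew)

attribute [local instance 100] LieRing.ofAssociativeRing

section irr

variable {K V : Type} [Field K] [AddCommGroup V] [Module K V] [FiniteDimensional K V]

/-- `V` is an irreducible representation of `so(V, q)`. -/
theorem irr {q : LinearMap.BilinForm K V} (hs : q.IsSymm) (hn : q.Nondegenerate)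
    (h3 : 3 ≤ Module.finrank K V) (P : Submodule K V)
    (hP : ∀ A, Skew q A → ∀ x ∈ P, A x ∈ P) (h0 : P ≠ ⊥) : P = ⊤ := by
  have hq : ∀ x y, q x y = q y x := fun x y => hs.eq x y
  have hker : ∀ w ∈ P, w ≠ 0 → LinearMap.ker (q w) ≤ P := by
    intro w hw hw0 a ha
    rw [LinearMap.mem_ker] at ha
    obtain ⟨b, hb⟩ : ∃ b, q w b ≠ 0 := by
      by_contra hcon
      push Not at hcon
      exact hw0 (hn.1 w hcon)
    have h1 := hP _ (E_skew hq b a) w hw
    rw [E_apply, hq a w, ha, zero_smul, sub_zero] at h1
    have h2 := P.smul_mem (q b w)⁻¹ h1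
    rwa [inv_smul_smul₀ (by rw [hq b w]; exact hb)] at h2
  obtain ⟨w0, hw0, hw0'⟩ := Submodule.exists_mem_ne_zero_of_ne_bot h0
  by_contra htop
  obtain ⟨x, hx⟩ : ∃ x, x ∉ P := by
    by_contra hcon
    push Not at hcon
    exact htop (eq_top_iff.2 fun x _ => hcon x)
  have hinj : Function.Injective ((q.flip x).domRestrict P) := by
    rw [← LinearMap.ker_eq_bot, LinearMap.ker_eq_bot']
    intro w hw
    have hw1 : q w x = 0 := hw
    by_contra hne
    exact hx (hker w w.2 (fun h => hne (Subtype.ext h)) hw1)
  have hle1 : finrank K P ≤ 1 := by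
    have := LinearMap.finrank_le_finrank_of_injective hinj
    rwa [finrank_self] at this
  have hrank := LinearMap.finrank_range_add_finrank_ker (q w0)
  have hr1 : finrank K (LinearMap.range (q w0)) ≤ 1 := by
    have := Submodule.finrank_le (LinearMap.range (q w0))
    rwa [finrank_self] at this
  have hle2 := Submodule.finrank_mono (hker w0 hw0 hw0')
  omega

/-- The orthogonal Lie algebra. -/
def soq (q : LinearMap.BilinForm K V) : LieSubalgebra K (Module.End K V) where
  carrier := {A | Skew q A}
  zero_mem' := fun x y => by simp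
  add_mem' := fun {A B} hA hB x y => by
    have h1 := hA x y
    have h2 := hB x y
    simp only [LinearMap.add_apply, map_add]
    linear_combination h1 + h2
  smul_mem' := fun c A hA x y => by
    have h1 := hA x y
    simp only [LinearMap.smul_apply, map_smul, smul_eq_mul]
    linear_combination c * h1
  lie_mem' := fun {A B} hA hB x y => by
    have h1 := hA (B x) y
    have h2 := hB x (A y)
    have h3 := hB (A x) y
    have h4 := hA x (B y)
    show q ((A * B - B * A) x) y + q x ((A * B - B * A) y) = 0
    simp only [LinearMap.sub_apply, Module.End.mul_apply, map_sub]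
    linear_combination h1 - h2 - h3 + h4

theorem mem_soq {q : LinearMap.BilinForm K V} {A : Module.End K V} : A ∈ soq q ↔ Skew q A :=
  Iff.rfl

/-- A skew map has trace zero. -/
theorem trace_skew [CharZero K] {q : LinearMap.BilinForm K V} (hs : q.IsSymm)
    (hn : q.Nondegenerate) {A : Module.End K V} (hA : Skew q A) : LinearMap.trace K V A = 0 := by
  classical
  let b := Module.finBasis K V
  let b' := q.dualBasis hn b
  have e1 : ∀ v : V, v = ∑ j, q v (b' j) • b j := by
    intro v
    have h1 := b.sum_repr v
    conv_lhs => rw [← h1]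
    refine Finset.sum_congr rfl fun j _ => ?_
    congr 1
    have h2 : q v (b' j) = ∑ i, b.repr v i * q (b i) (b' j) := by
      conv_lhs => rw [← h1]
      rw [map_sum, LinearMap.sum_apply]
      exact Finset.sum_congr rfl fun i _ => by rw [map_smul, LinearMap.smul_apply, smul_eq_mul]
    rw [h2, Finset.sum_eq_single j]
    · rw [LinearMap.BilinForm.apply_dualBasis_right hn hs, if_pos rfl, mul_one]
    · intro i _ hi
      rw [LinearMap.BilinForm.apply_dualBasis_right hn hs, if_neg hi, mul_zero]
    · intro h
      exact absurd (Finset.mem_univ _) h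
  have e2 : ∀ v : V, v = ∑ j, q v (b j) • b' j := by
    intro v
    have h1 := b'.sum_repr v
    conv_lhs => rw [← h1]
    refine Finset.sum_congr rfl fun j _ => ?_
    congr 1
    exact LinearMap.BilinForm.dualBasis_repr_apply hn b v j
  have hrepr : ∀ v i, b.repr v i = q v (b' i) := by
    intro v i
    conv_lhs => rw [e1 v]
    rw [map_sum, Finsupp.finset_sum_apply, Finset.sum_eq_single i]
    · simp
    · intro j _ hj
      simp [Finsupp.single_apply, hj]
    · intro h
      exact absurd (Finset.mem_univ _) h
  have hrepr' : ∀ v i, b'.repr v i = q v (b i) :=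
    fun v i => LinearMap.BilinForm.dualBasis_repr_apply hn b v i
  have t1 : LinearMap.trace K V A = ∑ i, q (A (b i)) (b' i) := by
    rw [LinearMap.trace_eq_matrix_trace K b, Matrix.trace]
    refine Finset.sum_congr rfl fun i _ => ?_
    rw [Matrix.diag_apply, LinearMap.toMatrix_apply, hrepr]
  have t2 : LinearMap.trace K V A = ∑ i, q (A (b' i)) (b i) := by
    rw [LinearMap.trace_eq_matrix_trace K b', Matrix.trace]
    refine Finset.sum_congr rfl fun i _ => ?_
    rw [Matrix.diag_apply, LinearMap.toMatrix_apply, hrepr']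
  have t3 : LinearMap.trace K V A = - LinearMap.trace K V A := by
    conv_rhs => rw [t2]
    rw [t1, ← Finset.sum_neg_distrib]
    refine Finset.sum_congr rfl fun i _ => ?_
    have h1 := hA (b i) (b' i)
    have h2 : q (b i) (A (b' i)) = q (A (b' i)) (b i) := hs.eq _ _
    rw [h2] at h1
    linear_combination h1
  have h2 : (2 : K) * LinearMap.trace K V A = 0 := by linear_combination t3
  exact (mul_eq_zero.1 h2).resolve_left two_ne_zero

end irr

section killing

variable {K V : Type} [Field K] [CharZero K] [IsAlgClosed K] [AddCommGroup V] [Module K V]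
  [FiniteDimensional K V]

open LieAlgebra LieModule in
/-- The Killing form of `so(V, q)` is nondegenerate. -/
theorem killing {q : LinearMap.BilinForm K V} (hs : q.IsSymm) (hn : q.Nondegenerate)
    (h3 : 3 ≤ Module.finrank K V) : LieAlgebra.IsKilling K (soq q) := by
  have hnt : Nontrivial V := Module.nontrivial_of_finrank_pos (R := K) (by omega)
  have key : ∀ y ∈ radical K (soq q), y.1 = 0 := by
    intro y hy
    obtain ⟨χ, hχ⟩ := exists_nontrivial_weightSpace_of_isSolvable K (radical K (soq q)) V
    let P' : LieSubmodule K (soq q) V := weightSpaceOfIsLieTower K V χ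
    have hP' : ∀ v : V, v ∈ P' ↔ ∀ y : radical K (soq q), ⁅y, v⁆ = χ y • v := fun v =>
      mem_weightSpace _ v
    have hP0 : P'.toSubmodule ≠ ⊥ := by
      obtain ⟨v, hv⟩ := exists_ne (0 : weightSpace V χ)
      intro h0
      have h1 : v.1 ∈ P'.toSubmodule := v.2
      rw [h0, Submodule.mem_bot] at h1
      exact hv (Subtype.ext h1)
    have htop := irr hs hn h3 P'.toSubmodule (fun A hA x hx =>
      P'.lie_mem (x := (⟨A, hA⟩ : soq q)) hx) hP0
    have hs' : ∀ v : V, y.1 v = χ ⟨y, hy⟩ • v := by
      intro v
      have h1 : v ∈ P'.toSubmodule := by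
        rw [htop]
        exact Submodule.mem_top
      exact (hP' v).1 h1 ⟨y, hy⟩
    have hy1 : y.1 = χ ⟨y, hy⟩ • (1 : Module.End K V) := by
      ext v
      exact hs' v
    have ht := trace_skew hs hn y.2
    rw [hy1, map_smul, LinearMap.trace_one, smul_eq_mul] at ht
    have hd : (finrank K V : K) ≠ 0 := by
      have : finrank K V ≠ 0 := by omega
      exact_mod_cast this
    rw [hy1, (mul_eq_zero.1 ht).resolve_right hd, zero_smul]
  have : HasTrivialRadical K (soq q) := by
    constructor
    rw [eq_bot_iff]
    intro y hy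
    rw [LieSubmodule.mem_bot]
    exact Subtype.ext (key y hy)
  infer_instance

end killing

section weyl

variable {K V W : Type} [Field K] [CharZero K] [IsAlgClosed K] [AddCommGroup V] [Module K V]
  [FiniteDimensional K V] [AddCommGroup W] [Module K W] [FiniteDimensional K W]

theorem weyl {q : LinearMap.BilinForm K V} (hs : q.IsSymm) (hn : q.Nondegenerate)
    (h3 : 3 ≤ Module.finrank K V) (ρ : Module.End K V →ₗ[K] Module.End K W)
    (hρ : ∀ A B, Skew q A → Skew q B → ρ (A * B - B * A) = ρ A * ρ B - ρ B * ρ A)
    (N : Submodule K W) (hN : ∀ A, Skew q A → ∀ x ∈ N, ρ A x ∈ N) :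
    ∃ f : Module.End K W, (∀ A, Skew q A → Commute (ρ A) f) ∧ (∀ m, f m ∈ N) ∧
      ∀ n ∈ N, f n = n := by
  have hk := killing hs hn h3
  let φ : soq q →ₗ⁅K⁆ Module.End K W :=
    { toLinearMap := ρ ∘ₗ (soq q).toSubmodule.subtype
      map_lie' := fun {A B} => hρ A.1 B.1 A.2 B.2 }
  letI : LieRingModule (soq q) W := LieRingModule.compLieHom W φ
  letI : LieModule K (soq q) W := LieModule.compLieHom W φ
  let N' : LieSubmodule K (soq q) W :=
    { toSubmodule := N
      lie_mem := fun {A x} hx => hN A.1 A.2 x hx }
  obtain ⟨f, h1, h2, h4⟩ := Pool.Agent.R918.Weyl.exists_projection N'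
  refine ⟨f, fun A hA => ?_, h2, h4⟩
  refine LinearMap.ext fun m => ?_
  exact (h1 (⟨A, hA⟩ : soq q) m).symm

theorem nilz {q : LinearMap.BilinForm K V} (hs : q.IsSymm) (hn : q.Nondegenerate)
    (h3 : 3 ≤ Module.finrank K V) (ρ : Module.End K V →ₗ[K] Module.End K W)
    (hρ : ∀ A B, Skew q A → Skew q B → ρ (A * B - B * A) = ρ A * ρ B - ρ B * ρ A)
    (T : Module.End K W) (hT : ∀ A, Skew q A → Commute (ρ A) T)
    (hc : ∀ c : Module.End K W, (∀ A, Skew q A → Commute (ρ A) c) → Commute c T)
    (hz : ∀ z : Module.End K W, z * z = z → (∀ A, Skew q A → Commute (ρ A) z) →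
      LinearMap.trace K W (T * z) = 0) : T = 0 := by
  -- the eigenvalues are zero
  have heig : ∀ μ : K, μ ≠ 0 → T.maxGenEigenspace μ = ⊥ := by
    intro μ hμ
    obtain ⟨f, hf1, hf2, hf3⟩ := weyl hs hn h3 ρ hρ (T.maxGenEigenspace μ) (fun A hA x hx =>
      Module.End.mapsTo_maxGenEigenspace_of_comm (hT A hA).symm μ hx)
    have hff : f * f = f := by
      refine LinearMap.ext fun m => ?_
      exact hf3 _ (hf2 m)
    have htr := hz f hff hf1
    have hTf := hc f hf1
    have hproj : LinearMap.IsProj (T.maxGenEigenspace μ) f := ⟨hf2, hf3⟩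
    have hnil : IsNilpotent ((T - μ • (1 : Module.End K W)) * f) := by
      refine ⟨finrank K W, ?_⟩
      have hcomm : Commute (T - μ • (1 : Module.End K W)) f :=
        (hTf.symm).sub_left ((Commute.one_left f).smul_left μ)
      rw [hcomm.mul_pow]
      have hpow : ∀ k : ℕ, ∀ m, ((T - μ • (1 : Module.End K W)) ^ finrank K W) ((f ^ (k + 1)) m) = 0 := by
        intro k m
        have h1 : (f ^ (k + 1)) m ∈ T.maxGenEigenspace μ := by
          rw [pow_succ', Module.End.mul_apply]
          exact hf2 _
        rw [Module.End.maxGenEigenspace_eq_genEigenspace_finrank] at h1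
        exact (Module.End.mem_genEigenspace_nat.1 h1)
      refine LinearMap.ext fun m => ?_
      rcases Nat.eq_zero_or_pos (finrank K W) with h0 | h0
      · have : Subsingleton W := Module.finrank_zero_iff.1 h0
        exact Subsingleton.elim _ _
      · obtain ⟨k, hk⟩ := Nat.exists_eq_succ_of_ne_zero h0.ne'
        have := hpow k m
        rw [Module.End.mul_apply]
        conv_lhs => rw [show f ^ finrank K W = f ^ (k + 1) by rw [hk]]
        exact this
    have ht0 := (LinearMap.isNilpotent_trace_of_isNilpotent hnil).eq_zero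
    have h4 : T * f = (T - μ • (1 : Module.End K W)) * f + μ • f := by
      rw [sub_mul, smul_mul_assoc, one_mul, sub_add_cancel]
    rw [h4, map_add, ht0, zero_add, map_smul, hproj.trace, smul_eq_mul] at htr
    have h5 := (mul_eq_zero.1 htr).resolve_left hμ
    have h6 : finrank K (T.maxGenEigenspace μ) = 0 := by exact_mod_cast h5
    exact Submodule.finrank_eq_zero.1 h6
  have htop : T.maxGenEigenspace 0 = ⊤ := by
    rw [eq_top_iff, ← Module.End.iSup_maxGenEigenspace_eq_top T]
    refine iSup_le fun μ => ?_
    by_cases hμ : μ = 0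
    · rw [hμ]
    · rw [heig μ hμ]
      exact bot_le
  have hnil : ∀ x, (T ^ finrank K W) x = 0 := by
    intro x
    have h1 : x ∈ T.maxGenEigenspace 0 := by
      rw [htop]
      exact Submodule.mem_top
    rw [Module.End.maxGenEigenspace_eq_genEigenspace_finrank] at h1
    have h2 := Module.End.mem_genEigenspace_nat.1 h1
    rwa [zero_smul, sub_zero] at h2
  -- the projection to the kernel
  obtain ⟨f, hf1, hf2, hf3⟩ := weyl hs hn h3 ρ hρ (LinearMap.ker T) (fun A hA x hx => by
    rw [LinearMap.mem_ker] at hx ⊢
    have h1 := LinearMap.congr_fun (hT A hA).eq x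
    rw [Module.End.mul_apply, Module.End.mul_apply, hx, map_zero] at h1
    exact h1.symm)
  have hfT : ∀ x, f (T x) = 0 := by
    intro x
    have h1 := LinearMap.congr_fun (hc f hf1).eq x
    rw [Module.End.mul_apply, Module.End.mul_apply] at h1
    rw [h1]
    exact hf2 x
  have key : ∀ (m : ℕ) (y : W), f y = 0 → (T ^ m) y = 0 → y = 0 := by
    intro m
    induction m with
    | zero => intro y _ hy; exact hy
    | succ m ih =>
      intro y hy hm
      rw [pow_succ, Module.End.mul_apply] at hm
      have h1 := ih (T y) (hfT y) hm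
      have h2 := hf3 y (LinearMap.mem_ker.2 h1)
      rw [← h2, hy]
  refine LinearMap.ext fun x => ?_
  exact key (finrank K W) (T x) (hfT x) (hnil (T x))

end weyl

end Run7.h615.MT
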