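import Pool.Agent.Run7.h615.MT.P7
import Pool.Agent.Run7.h475.MT.Rat
import Pool.Agent.Run7.h475.MT.Log

/-!
# Project MT457: common lemmas of P8 and P9
-/

set_option autoImplicit false

namespace Run7.h615.MT

open Matrix Filter Topology
open Run7.h457.MT
open Run7.h475.MT (t_SPAN t_SPANV t_LIE t_INV ext_map ext_rat expand mt_lie mt_mem mt_mem' mt_le
  t_LOGEX t_LOGSTAB t_LOGFIX)

noncomputable section

/-! ## Functionals -/

section fun_ext

variable {F : Type} [Field F] [Algebra ℚ F] {ι κ : Type}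

/-- Two matrices are equal if all functionals agree on them. -/
theorem mat_ext {A B : Matrix ι κ F} (h : ∀ φ : F →ₗ[ℚ] ℚ, A.map φ = B.map φ) : A = B := by
  ext i j
  rw [← sub_eq_zero]
  apply Run7.h475.MT.eq_zero_of_functionals
  intro φ
  rw [map_sub, sub_eq_zero]
  exact congrFun (congrFun (h φ) i) j

end fun_ext

/-! ## `dkun` -/

section dkun

variable {S : Type} [Fintype S] [DecidableEq S] {n : S → ℕ → ℕ} {F : Type} [Field F]

theorem dkun_congr (d : S → ℕ) (i : ℕ) {A A' : ∀ s j, Matrix (Fin (n s j)) (Fin (n s j)) F}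
    (h : ∀ s, ∀ j ≤ d s, A s j = A' s j) : dkun d i A = dkun d i A' := by
  unfold dkun
  congr 1
  funext a
  congr 1
  funext s
  exact h s _ (Nat.lt_succ_iff.1 (a.1 s).2)

theorem kun_congr (d : S → ℕ) (i : ℕ) {A A' : ∀ s j, Matrix (Fin (n s j)) (Fin (n s j)) F}
    (h : ∀ s, ∀ j ≤ d s, A s j = A' s j) : kun d i A = kun d i A' := by
  unfold kun
  congr 1
  funext a
  congr 1
  funext s
  exact h s _ (Nat.lt_succ_iff.1 (a.1 s).2)

theorem dkun_add (d : S → ℕ) (i : ℕ) (A A' : ∀ s j, Matrix (Fin (n s j)) (Fin (n s j)) F) :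
    dkun d i (fun s j => A s j + A' s j) = dkun d i A + dkun d i A' := by
  unfold dkun
  rw [← Matrix.blockDiagonal'_add]
  congr 1
  funext a
  exact (klin (RingHom.id F) (fun s => A s (a.1 s)) (fun s => A' s (a.1 s)) 0).1

theorem dkun_smul (d : S → ℕ) (i : ℕ) (c : F)
    (A : ∀ s j, Matrix (Fin (n s j)) (Fin (n s j)) F) :
    dkun d i (fun s j => c • A s j) = c • dkun d i A := by
  unfold dkun
  rw [← Matrix.blockDiagonal'_smul]
  congr 1
  funext a
  exact (klin (RingHom.id F) (fun s => A s (a.1 s)) (fun s => A s (a.1 s)) c).2.1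

theorem dkron_functional {I : S → Type} [∀ s, Fintype (I s)] [∀ s, DecidableEq (I s)]
    [Algebra ℚ F] (φ : F →ₗ[ℚ] ℚ) (L : ∀ s, Matrix (I s) (I s) F) :
    (dkron L).map φ = dkron fun s => (L s).map φ := by
  ext u v
  rw [Matrix.map_apply, dkron_apply, dkron_apply, map_sum]
  refine Finset.sum_congr rfl fun s _ => ?_
  have h1 : ∀ (F' : Type) [Field F'], ∏ k ∈ Finset.univ.erase s,
      (1 : Matrix (I k) (I k) F') (u k) (v k) =
      if ∀ k ∈ Finset.univ.erase s, u k = v k then 1 else 0 := by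
    intro F' _
    split_ifs with h
    · refine Finset.prod_eq_one fun k hk => ?_
      rw [h k hk, Matrix.one_apply_eq]
    · push Not at h
      obtain ⟨k, hk, hne⟩ := h
      exact Finset.prod_eq_zero hk (Matrix.one_apply_ne hne)
  rw [h1, h1]
  split_ifs
  · rw [mul_one, mul_one, Matrix.map_apply]
  · rw [mul_zero, mul_zero, map_zero]

theorem blockDiagonal'_functional {K : Type} [DecidableEq K] {I : K → Type} [Algebra ℚ F]
    (φ : F →ₗ[ℚ] ℚ) (M : ∀ k, Matrix (I k) (I k) F) :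
    (Matrix.blockDiagonal' M).map φ = Matrix.blockDiagonal' fun k => (M k).map φ :=
  Matrix.blockDiagonal'_map M φ (map_zero φ)

theorem dkun_functional [Algebra ℚ F] (φ : F →ₗ[ℚ] ℚ) (d : S → ℕ) (i : ℕ)
    (A : ∀ s j, Matrix (Fin (n s j)) (Fin (n s j)) F) :
    (dkun d i A).map φ = dkun d i fun s j => (A s j).map φ := by
  unfold dkun
  rw [blockDiagonal'_functional]
  congr 1
  funext a
  exact dkron_functional φ _

theorem dkun_map {F' : Type} [Field F'] (φ : F →+* F') (d : S → ℕ) (i : ℕ)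
    (A : ∀ s j, Matrix (Fin (n s j)) (Fin (n s j)) F) :
    (dkun d i A).map φ = dkun d i fun s j => (A s j).map φ := by
  unfold dkun
  rw [Matrix.blockDiagonal'_map _ _ (map_zero φ)]
  congr 1
  funext a
  exact (klin φ (fun s => A s (a.1 s)) (fun s => A s (a.1 s)) 0).2.2.1

end dkun

/-! ## Logarithms -/

section logs

variable {κ : Type} [Fintype κ] [DecidableEq κ] {ℓ : ℕ} [Fact ℓ.Prime]

theorem log_unique {g L L' : Matrix κ κ ℚ_[ℓ]} (h : IsLog g L) (h' : IsLog g L') : L = L' :=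
  tendsto_nhds_unique h h'

theorem tendsto_ell : Tendsto (fun n : ℕ => (ℓ : ℚ_[ℓ]) ^ n) atTop (𝓝 0) := by
  apply tendsto_pow_atTop_nhds_zero_of_norm_lt_one
  exact Padic.norm_p_lt_one

theorem ell_ne (n : ℕ) : (ℓ : ℚ_[ℓ]) ^ n ≠ 0 :=
  pow_ne_zero n (Nat.cast_ne_zero.2 (Fact.out : ℓ.Prime).ne_zero)

/-- `g ^ ℓ ^ n → 1`. -/
theorem log_tendsto_one {g L : Matrix κ κ ℚ_[ℓ]} (h : IsLog g L) :
    Tendsto (fun n : ℕ => g ^ ℓ ^ n) atTop (𝓝 1) := by
  have h1 : Tendsto (fun n : ℕ => (ℓ : ℚ_[ℓ]) ^ n • (((ℓ : ℚ_[ℓ]) ^ n)⁻¹ • (g ^ ℓ ^ n - 1)) + 1)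
      atTop (𝓝 ((0 : ℚ_[ℓ]) • L + 1)) := (tendsto_ell.smul h).add tendsto_const_nhds
  rw [zero_smul, zero_add] at h1
  refine h1.congr fun n => ?_
  rw [smul_smul, mul_inv_cancel₀ (ell_ne n), one_smul, sub_add_cancel]

/-- The logarithm of a product of commuting matrices. -/
theorem log_mul {a b A B : Matrix κ κ ℚ_[ℓ]} (ha : IsLog a A) (hb : IsLog b B)
    (hab : Commute a b) : IsLog (a * b) (A + B) := by
  have h1 : Tendsto (fun n : ℕ => (((ℓ : ℚ_[ℓ]) ^ n)⁻¹ • (a ^ ℓ ^ n - 1)) * b ^ ℓ ^ n +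
      ((ℓ : ℚ_[ℓ]) ^ n)⁻¹ • (b ^ ℓ ^ n - 1)) atTop (𝓝 (A * 1 + B)) :=
    (ha.mul (log_tendsto_one hb)).add hb
  rw [mul_one] at h1
  refine h1.congr fun n => ?_
  rw [hab.mul_pow, smul_mul_assoc, ← smul_add]
  congr 1
  noncomm_ring

theorem log_one : IsLog (1 : Matrix κ κ ℚ_[ℓ]) 0 := by
  refine tendsto_const_nhds.congr fun n => ?_
  rw [one_pow, sub_self, smul_zero]

theorem log_pow {a A : Matrix κ κ ℚ_[ℓ]} (ha : IsLog a A) (k : ℕ) :
    IsLog (a ^ k) ((k : ℚ_[ℓ]) • A) := by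
  induction k with
  | zero =>
    rw [pow_zero, Nat.cast_zero, zero_smul]
    exact log_one
  | succ k ih =>
    rw [pow_succ, Nat.cast_succ, add_smul, one_smul]
    exact log_mul ih ha ((Commute.refl a).pow_left k)

/-- In `galLie` one may restrict to a subgroup of finite index. -/
theorem galLie_finite {Γ : Type} [Group Γ] (ρ : Γ → Matrix κ κ ℚ_[ℓ]) (h1 : ρ 1 = 1)
    (hmul : ∀ σ τ, ρ (σ * τ) = ρ σ * ρ τ) (Δ : Subgroup Γ) [Δ.FiniteIndex] :
    galLie ρ = Submodule.span ℚ_[ℓ] {L | ∃ σ ∈ Δ, IsLog (ρ σ) L} := by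
  have hpow : ∀ σ (k : ℕ), ρ (σ ^ k) = ρ σ ^ k := by
    intro σ k
    induction k with
    | zero => rw [pow_zero, pow_zero, h1]
    | succ k ih => rw [pow_succ, pow_succ, hmul, ih]
  apply le_antisymm
  · unfold galLie
    rw [Submodule.span_le]
    rintro L ⟨σ, hσ⟩
    obtain ⟨k, hk0, hk⟩ : ∃ k : ℕ, k ≠ 0 ∧ σ ^ k ∈ Δ := by
      have h2 := Subgroup.exists_pow_mem_of_index_ne_zero (H := Δ) Subgroup.FiniteIndex.index_ne_zero σ
      obtain ⟨k, hk1, _, hk3⟩ := h2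
      exact ⟨k, hk1.ne', hk3⟩
    have h3 : IsLog (ρ (σ ^ k)) ((k : ℚ_[ℓ]) • L) := by
      rw [hpow]
      exact log_pow hσ k
    have h4 : L = ((k : ℚ_[ℓ]))⁻¹ • ((k : ℚ_[ℓ]) • L) := by
      rw [smul_smul, inv_mul_cancel₀ (Nat.cast_ne_zero.2 hk0), one_smul]
    rw [h4]
    exact Submodule.smul_mem _ _ (Submodule.subset_span ⟨σ ^ k, hk, h3⟩)
  · unfold galLie
    apply Submodule.span_mono
    rintro L ⟨σ, _, hσ⟩
    exact ⟨σ, hσ⟩

end logs

/-! ## The Lie algebra `𝔪` -/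

section skew

theorem skew_map {κ : Type} [Fintype κ] {F : Type} [Field F] [Algebra ℚ F] (q : Matrix κ κ ℚ)
    {J : Matrix κ κ F} (h : SkewMat (q.map (algebraMap ℚ F)) J) (φ : F →ₗ[ℚ] ℚ) :
    SkewMat q (J.map φ) := by
  unfold SkewMat at h ⊢
  ext i j
  have h1 := congrArg φ (congrFun (congrFun h i) j)
  rw [Matrix.add_apply, Matrix.mul_apply, Matrix.mul_apply, Matrix.zero_apply, map_zero, map_add,
    map_sum, map_sum] at h1
  rw [Matrix.add_apply, Matrix.mul_apply, Matrix.mul_apply, Matrix.zero_apply]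
  rw [← h1]
  congr 1
  · refine Finset.sum_congr rfl fun k _ => ?_
    rw [Matrix.map_apply, Matrix.transpose_apply, Matrix.transpose_apply, Matrix.map_apply,
      mul_comm (J k i), ← Algebra.smul_def, map_smul, smul_eq_mul, mul_comm]
  · refine Finset.sum_congr rfl fun k _ => ?_
    rw [Matrix.map_apply, Matrix.map_apply, ← Algebra.smul_def, map_smul, smul_eq_mul]

theorem skew_trace {κ : Type} [Fintype κ] [DecidableEq κ] {F : Type} [Field F] [CharZero F]
    {q A : Matrix κ κ F} (hq : q.det ≠ 0) (h : SkewMat q A) : A.trace = 0 := by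
  have hu : IsUnit q.det := isUnit_iff_ne_zero.2 hq
  have h1 : A = -(q⁻¹ * Aᵀ * q) := by
    have h2 : q⁻¹ * (Aᵀ * q + q * A) = 0 := by
      rw [show Aᵀ * q + q * A = 0 from h, mul_zero]
    rw [mul_add, ← mul_assoc, ← mul_assoc, Matrix.nonsing_inv_mul _ hu, one_mul] at h2
    exact eq_neg_of_add_eq_zero_right h2
  have h3 : A.trace = -A.trace := by
    conv_lhs => rw [h1]
    rw [Matrix.trace_neg, Matrix.trace_mul_cycle, Matrix.mul_nonsing_inv _ hu, one_mul,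
      Matrix.trace_transpose]
  have h4 : (2 : F) * A.trace = 0 := by
    rw [two_mul]
    exact eq_neg_iff_add_eq_zero.1 h3
  rcases mul_eq_zero.1 h4 with h5 | h5
  · exact absurd h5 two_ne_zero
  · exact h5

theorem skew_sub {κ F : Type} [Fintype κ] [Field F] {q A B : Matrix κ κ F} (hA : SkewMat q A)
    (hB : SkewMat q B) : SkewMat q (A * B - B * A) := by
  unfold SkewMat at *
  have hA' : Aᵀ * q = -(q * A) := eq_neg_of_add_eq_zero_left hA
  have hB' : Bᵀ * q = -(q * B) := eq_neg_of_add_eq_zero_left hB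
  rw [Matrix.transpose_sub, Matrix.transpose_mul, Matrix.transpose_mul, sub_mul, mul_assoc,
    mul_assoc, hA', hB', mul_neg, mul_neg, ← mul_assoc, ← mul_assoc, hA', hB', mul_sub]
  rw [neg_mul, neg_mul, mul_assoc, mul_assoc]
  abel

end skew

variable {T : Type} [Fintype T] [DecidableEq T] {d : T → ℕ} (B : ∀ t, LLV (d t))

/-- The index set of the basis of `⊕ H²(X_t)`. -/
abbrev I2 : Type := Σ t, Fin ((B t).n 2)

/-- The Lie algebra `𝔪`: block diagonal matrices with blocks `c + skew`. -/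
def mm : Submodule ℚ (Matrix (I2 B) (I2 B) ℚ) where
  carrier := {A | ∃ (c : T → ℚ) (Y : ∀ t, Matrix (Fin ((B t).n 2)) (Fin ((B t).n 2)) ℚ),
    (∀ t, SkewMat (B t).q (Y t)) ∧ A = Matrix.blockDiagonal' fun t => c t • 1 + Y t}
  zero_mem' := by
    refine ⟨0, 0, fun t => ?_, ?_⟩
    · unfold SkewMat
      simp
    · have e : (fun t : T => (0 : T → ℚ) t • (1 : Matrix (Fin ((B t).n 2)) (Fin ((B t).n 2)) ℚ) +
        (0 : ∀ t, Matrix (Fin ((B t).n 2)) (Fin ((B t).n 2)) ℚ) t) = 0 := by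
        funext t
        simp
      rw [e, Matrix.blockDiagonal'_zero]
  add_mem' := by
    rintro _ _ ⟨c, Y, hY, rfl⟩ ⟨c', Y', hY', rfl⟩
    refine ⟨c + c', Y + Y', fun t => ?_, ?_⟩
    · have h1 := hY t
      have h2 := hY' t
      unfold SkewMat at *
      rw [Pi.add_apply, Matrix.transpose_add, add_mul, mul_add]
      rw [show (Y t)ᵀ * (B t).q + (Y' t)ᵀ * (B t).q + ((B t).q * Y t + (B t).q * Y' t) =
        ((Y t)ᵀ * (B t).q + (B t).q * Y t) + ((Y' t)ᵀ * (B t).q + (B t).q * Y' t) by abel,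
        h1, h2, add_zero]
    · rw [← Matrix.blockDiagonal'_add]
      congr 1
      funext t
      show (c t • 1 + Y t) + (c' t • 1 + Y' t) = (c t + c' t) • 1 + (Y t + Y' t)
      rw [add_smul]
      abel
  smul_mem' := by
    rintro x _ ⟨c, Y, hY, rfl⟩
    refine ⟨x • c, x • Y, fun t => ?_, ?_⟩
    · have h1 := hY t
      unfold SkewMat at *
      rw [Pi.smul_apply, Matrix.transpose_smul, smul_mul_assoc, mul_smul_comm, ← smul_add, h1,
        smul_zero]
    · rw [← Matrix.blockDiagonal'_smul]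
      congr 1
      funext t
      show x • (c t • 1 + Y t) = (x * c t) • 1 + x • Y t
      rw [smul_add, smul_smul]

theorem comm_add {κ : Type} [Fintype κ] [DecidableEq κ] (c c' : ℚ) (Y Y' : Matrix κ κ ℚ) :
    (c • 1 + Y) * (c' • 1 + Y') - (c' • 1 + Y') * (c • 1 + Y) = Y * Y' - Y' * Y := by
  simp only [add_mul, mul_add, smul_mul_assoc, mul_smul_comm, one_mul, mul_one, smul_add]
  rw [smul_comm c c']
  abel

theorem mm_bracket (c c' : T → ℚ) (Y Y' : ∀ t, Matrix (Fin ((B t).n 2)) (Fin ((B t).n 2)) ℚ) :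
    (Matrix.blockDiagonal' fun t => c t • (1 : Matrix (Fin ((B t).n 2)) (Fin ((B t).n 2)) ℚ) + Y t) *
      (Matrix.blockDiagonal' fun t => c' t • 1 + Y' t) -
      (Matrix.blockDiagonal' fun t => c' t • (1 : Matrix (Fin ((B t).n 2)) (Fin ((B t).n 2)) ℚ) +
        Y' t) * (Matrix.blockDiagonal' fun t => c t • 1 + Y t) =
    Matrix.blockDiagonal' fun t => Y t * Y' t - Y' t * Y t := by
  rw [← Matrix.blockDiagonal'_mul, ← Matrix.blockDiagonal'_mul, ← Matrix.blockDiagonal'_sub]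
  congr 1
  funext t
  exact comm_add _ _ _ _

theorem mm_lie : IsLie (mm B) := by
  rintro _ ⟨c, Y, hY, rfl⟩ _ ⟨c', Y', hY', rfl⟩
  refine ⟨0, fun t => Y t * Y' t - Y' t * Y t, fun t => skew_sub (hY t) (hY' t), ?_⟩
  rw [mm_bracket]
  congr 1
  funext t
  rw [Pi.zero_apply, zero_smul, zero_add]

/-! ## The map `E` -/

theorem R_apply {e : ℕ} (A : LLV e) (j : ℕ) (c : ℚ) {Y : Matrix (Fin (A.n 2)) (Fin (A.n 2)) ℚ}
    (hY : SkewMat A.q Y) : A.R j (c • 1 + Y) = ((j : ℚ) / 2 * c) • 1 + A.ρ j Y := by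
  have hn : (A.n 2 : ℚ) ≠ 0 := by
    have := A.dim
    exact Nat.cast_ne_zero.2 (by omega)
  have h1 : (c • (1 : Matrix (Fin (A.n 2)) (Fin (A.n 2)) ℚ) + Y).trace / A.n 2 = c := by
    rw [Matrix.trace_add, Matrix.trace_smul, Matrix.trace_one, skew_trace A.nondeg hY,
      Fintype.card_fin, add_zero, smul_eq_mul, mul_div_assoc, div_self hn, mul_one]
  show ((j : ℚ) / 2 * ((c • 1 + Y).trace / A.n 2)) • 1 +
    A.ρ j ((c • 1 + Y) - ((c • 1 + Y).trace / A.n 2) • 1) = _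
  rw [h1, add_sub_cancel_left]

variable {S : Type} [Fintype S] [DecidableEq S] (τ : S → T) (i : ℕ)

/-- `E(A)`: the action on `H^i` of the product of the `X_(τ s)` of the block diagonal part
of `A`. -/
def EE : Matrix (I2 B) (I2 B) ℚ →ₗ[ℚ]
    Matrix (KTot (fun s j => (B (τ s)).n j) (fun s => d (τ s)) i)
      (KTot (fun s j => (B (τ s)).n j) (fun s => d (τ s)) i) ℚ where
  toFun A := dkun (n := fun s j => (B (τ s)).n j) (fun s => d (τ s)) i
    fun s j => (B (τ s)).R j (Matrix.blockDiag' A (τ s))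
  map_add' A A' := by
    rw [← dkun_add]
    congr 1
    funext s j
    rw [Matrix.blockDiag'_add, Pi.add_apply, map_add]
  map_smul' c A := by
    rw [RingHom.id_apply, ← dkun_smul]
    congr 1
    funext s j
    rw [Matrix.blockDiag'_smul, Pi.smul_apply, map_smul]

theorem EE_apply (A : Matrix (I2 B) (I2 B) ℚ) : EE B τ i A =
    dkun (n := fun s j => (B (τ s)).n j) (fun s => d (τ s)) i
      fun s j => (B (τ s)).R j (Matrix.blockDiag' A (τ s)) := rfl

theorem EE_lie : LieOn (mm B) (EE B τ i) := by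
  rintro _ ⟨c, Y, hY, rfl⟩ _ ⟨c', Y', hY', rfl⟩
  rw [mm_bracket, EE_apply, EE_apply, EE_apply, Matrix.blockDiag'_blockDiagonal',
    Matrix.blockDiag'_blockDiagonal', Matrix.blockDiag'_blockDiagonal']
  rw [← ((t_KUN S (fun s j => (B (τ s)).n j) (fun s => d (τ s)) i).1 ℚ _ _).2.2]
  apply dkun_congr
  intro s j hj
  have h1 := R_apply (B (τ s)) j 0 (skew_sub (hY (τ s)) (hY' (τ s)))
  rw [zero_smul, zero_add, mul_zero, zero_smul, zero_add] at h1
  show (B (τ s)).R j (Y (τ s) * Y' (τ s) - Y' (τ s) * Y (τ s)) =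
    (B (τ s)).R j (c (τ s) • 1 + Y (τ s)) * (B (τ s)).R j (c' (τ s) • 1 + Y' (τ s)) -
    (B (τ s)).R j (c' (τ s) • 1 + Y' (τ s)) * (B (τ s)).R j (c (τ s) • 1 + Y (τ s))
  rw [h1, R_apply _ j _ (hY (τ s)), R_apply _ j _ (hY' (τ s)), comm_add,
    (B (τ s)).bracket j hj _ _ (hY (τ s)) (hY' (τ s))]

theorem blockDiag'_functional {K : Type} {I : K → Type} {F : Type} [Field F] [Algebra ℚ F]
    (φ : F →ₗ[ℚ] ℚ) (M : Matrix (Σ k, I k) (Σ k, I k) F) (k : K) :
    Matrix.blockDiag' (M.map φ) k = (Matrix.blockDiag' M k).map φ := rfl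

/-- The extension of scalars of `E`. -/
theorem ext_EE (F : Type) [Field F] [Algebra ℚ F] (A : Matrix (I2 B) (I2 B) F) :
    ext F (EE B τ i) A = dkun (n := fun s j => (B (τ s)).n j) (fun s => d (τ s)) i
      fun s j => ext F ((B (τ s)).R j) (Matrix.blockDiag' A (τ s)) := by
  apply mat_ext
  intro φ
  rw [ext_map, dkun_functional, EE_apply]
  congr 1
  funext s j
  rw [ext_map, blockDiag'_functional]

theorem ext_EE_block (F : Type) [Field F] [Algebra ℚ F]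
    (A : ∀ t, Matrix (Fin ((B t).n 2)) (Fin ((B t).n 2)) F) :
    ext F (EE B τ i) (Matrix.blockDiagonal' A) =
      dkun (n := fun s j => (B (τ s)).n j) (fun s => d (τ s)) i
        fun s j => ext F ((B (τ s)).R j) (A (τ s)) := by
  rw [ext_EE, Matrix.blockDiag'_blockDiagonal']

/-! ## Hodge theory -/

section hodge

variable {e : ℕ} {A : LLV e} (V : A.Hodge)

theorem D_add (j : ℕ) {κ : Type} [Fintype κ] [DecidableEq κ] (H : HodgeStr j κ) :
    H.D' = (j : ℂ) • 1 - H.D := by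
  rw [eq_sub_iff_add_eq]
  unfold HodgeStr.D HodgeStr.D'
  rw [← Finset.sum_add_distrib, ← H.sum, Finset.smul_sum]
  refine Finset.sum_congr rfl fun p hp => ?_
  rw [← add_smul]
  congr 1
  rw [← Nat.cast_add, Nat.sub_add_cancel (Nat.lt_succ_iff.1 (Finset.mem_range.1 hp))]

theorem D_map (j : ℕ) (hj : j ≤ e) (φ : ℂ →ₗ[ℚ] ℚ) :
    (V.V j).D.map φ = ((j : ℚ) / 2 * φ 1) • 1 + A.ρ j (V.J.map φ) := by
  rw [V.verb j hj, ← ext_map]
  ext a b
  rw [Matrix.map_apply, Matrix.add_apply, Matrix.add_apply, map_add, Matrix.map_apply]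
  congr 1
  rw [Matrix.smul_apply, Matrix.smul_apply, Matrix.one_apply, Matrix.one_apply]
  split_ifs
  · rw [smul_eq_mul, smul_eq_mul, mul_one, mul_one]
    have h1 : (j : ℂ) / 2 = ((j : ℚ) / 2) • (1 : ℂ) := by
      rw [Algebra.smul_def]
      push_cast
      simp
    rw [h1, map_smul, smul_eq_mul]
  · rw [smul_zero, smul_zero, map_zero]

theorem D'_map (j : ℕ) (hj : j ≤ e) (φ : ℂ →ₗ[ℚ] ℚ) :
    (V.V j).D'.map φ = ((j : ℚ) / 2 * φ 1) • 1 + A.ρ j (-(V.J.map φ)) := by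
  have h1 : (V.V j).D'.map φ = ((j : ℚ) * φ 1) • 1 - (V.V j).D.map φ := by
    rw [D_add]
    ext a b
    rw [Matrix.map_apply, Matrix.sub_apply, Matrix.sub_apply, map_sub, Matrix.map_apply]
    congr 1
    rw [Matrix.smul_apply, Matrix.smul_apply, Matrix.one_apply, Matrix.one_apply]
    split_ifs
    · rw [smul_eq_mul, smul_eq_mul, mul_one, mul_one]
      have h1 : (j : ℂ) = (j : ℚ) • (1 : ℂ) := by
        rw [Algebra.smul_def]
        push_cast
        simp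
      rw [h1, map_smul, smul_eq_mul]
    · rw [smul_zero, smul_zero, map_zero]
  rw [h1, D_map V j hj, map_neg, show ((j : ℚ) * φ 1) = (j : ℚ) / 2 * φ 1 + (j : ℚ) / 2 * φ 1 by ring,
    add_smul]
  abel

theorem skew_neg {κ F : Type} [Fintype κ] [Field F] {q Y : Matrix κ κ F} (h : SkewMat q Y) :
    SkewMat q (-Y) := by
  unfold SkewMat at *
  rw [Matrix.transpose_neg, neg_mul, mul_neg, ← neg_add, h, neg_zero]

theorem D2_map (he : 2 ≤ e) (φ : ℂ →ₗ[ℚ] ℚ) :
    (V.V 2).D.map φ = φ 1 • 1 + V.J.map φ := by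
  rw [D_map V 2 he, A.ρ_two _ (skew_map _ V.skew φ)]
  norm_num

theorem D2'_map (he : 2 ≤ e) (φ : ℂ →ₗ[ℚ] ℚ) :
    (V.V 2).D'.map φ = φ 1 • 1 + -(V.J.map φ) := by
  rw [D'_map V 2 he, A.ρ_two _ (skew_neg (skew_map _ V.skew φ))]
  norm_num

/-- Verbitsky's relation for `D`. -/
theorem ext_R_D (he : 2 ≤ e) (j : ℕ) (hj : j ≤ e) : ext ℂ (A.R j) (V.V 2).D = (V.V j).D := by
  apply mat_ext
  intro φ
  rw [ext_map, D2_map V he, R_apply A j _ (skew_map _ V.skew φ), D_map V j hj]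

/-- Verbitsky's relation for `D'`. -/
theorem ext_R_D' (he : 2 ≤ e) (j : ℕ) (hj : j ≤ e) : ext ℂ (A.R j) (V.V 2).D' = (V.V j).D' := by
  apply mat_ext
  intro φ
  rw [ext_map, D2'_map V he, R_apply A j _ (skew_neg (skew_map _ V.skew φ)), D'_map V j hj]

end hodge

variable (W : ∀ t, (B t).Hodge) (hd : ∀ t, 2 ≤ d t)

include hd

theorem D_mem : (Matrix.blockDiagonal' fun t => ((W t).V 2).D) ∈
    ratSpan ℂ (mm B : Set (Matrix (I2 B) (I2 B) ℚ)) := by
  rw [t_SPAN]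
  intro φ
  rw [blockDiagonal'_functional]
  refine ⟨fun _ => φ 1, fun t => (W t).J.map φ, fun t => skew_map _ (W t).skew φ, ?_⟩
  congr 1
  funext t
  exact D2_map (W t) (hd t) φ

theorem D'_mem : (Matrix.blockDiagonal' fun t => ((W t).V 2).D') ∈
    ratSpan ℂ (mm B : Set (Matrix (I2 B) (I2 B) ℚ)) := by
  rw [t_SPAN]
  intro φ
  rw [blockDiagonal'_functional]
  refine ⟨fun _ => φ 1, fun t => -((W t).J.map φ),
    fun t => skew_neg (skew_map _ (W t).skew φ), ?_⟩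
  congr 1
  funext t
  exact D2'_map (W t) (hd t) φ

theorem ext_EE_D : ext ℂ (EE B τ i) (Matrix.blockDiagonal' fun t => ((W t).V 2).D) =
    dkun (n := fun s j => (B (τ s)).n j) (fun s => d (τ s)) i fun s j => ((W (τ s)).V j).D := by
  rw [ext_EE_block]
  apply dkun_congr
  intro s j hj
  exact ext_R_D (W (τ s)) (hd _) j hj

theorem ext_EE_D' : ext ℂ (EE B τ i) (Matrix.blockDiagonal' fun t => ((W t).V 2).D') =
    dkun (n := fun s j => (B (τ s)).n j) (fun s => d (τ s)) i fun s j => ((W (τ s)).V j).D' := by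
  rw [ext_EE_block]
  apply dkun_congr
  intro s j hj
  exact ext_R_D' (W (τ s)) (hd _) j hj

omit hd

/-! ## The Galois side -/

section galois

variable {ℓ : ℕ} [Fact ℓ.Prime] {Γ : Type} [Group Γ]
  (G : ∀ t i, Γ →* Matrix (Fin ((B t).n i)) (Fin ((B t).n i)) ℚ_[ℓ])

/-- For `σ` near `1` all logarithms exist, and the logarithm of `σ` on `H^i` of the product is
`ext E` of the logarithm on `⊕ H²(X_t)`. -/
theorem log_near (hd : ∀ t, 2 ≤ d t) (hG : LogRel B G) (N : ℕ) :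
    ∃ Δ : Subgroup Γ, Δ.FiniteIndex ∧
      ∀ σ ∈ Δ, (∀ t, ∀ j ≤ d t, NearOne N (G t j σ)) ∧ NearOne N (kunRep B G τ i σ) ∧
        ∃ L : Matrix (I2 B) (I2 B) ℚ_[ℓ],
          IsLog (Matrix.blockDiagonal' fun t => G t 2 σ) L ∧
          IsLog (kunRep B G τ i σ) (ext ℚ_[ℓ] (EE B τ i) L) := by
  obtain ⟨Δ, hΔ, h⟩ := hG (N + 2)
  refine ⟨Δ, hΔ, fun σ hσ => ?_⟩
  have hℓ : (1 : ℝ) ≤ (ℓ : ℝ) := by exact_mod_cast (Fact.out : ℓ.Prime).one_lt.le
  have mono : ∀ {κ : Type} [Fintype κ] [DecidableEq κ] (g : Matrix κ κ ℚ_[ℓ]) (M : ℕ),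
      M ≤ N + 2 → NearOne (N + 2) g → NearOne M g := by
    intro κ _ _ g M hM hg u v
    refine (hg u v).trans ?_
    exact inv_anti₀ (by positivity) (pow_le_pow_right₀ hℓ hM)
  have hN : ∀ t, ∀ j ≤ d t, NearOne N (G t j σ) := fun t j hj =>
    mono _ N (by omega) (h σ hσ t j hj).1
  have hlog : ∀ t, ∃ L, IsLog (G t 2 σ) L := fun t =>
    t_LOGEX ℓ _ (G t 2 σ) (mono _ 2 (by omega) (h σ hσ t 2 (hd t)).1)
  choose L hL using hlog
  refine ⟨hN, ?_, Matrix.blockDiagonal' L, block_log _ _ hL, ?_⟩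
  · exact (t_KUN S (fun s j => (B (τ s)).n j) (fun s => d (τ s)) i).2.2 ℓ N
      (fun s j => G (τ s) j σ) fun s j hj => hN (τ s) j hj
  · rw [ext_EE_block]
    exact (t_KUN S (fun s j => (B (τ s)).n j) (fun s => d (τ s)) i).2.1 ℓ
      (fun s j => G (τ s) j σ) _ fun s j hj => (h σ hσ (τ s) j hj).2 _ (hL (τ s))

theorem kunRep_one : kunRep B G τ i 1 = 1 := by
  unfold kunRep
  have h1 : (fun s j => (G (τ s) j) (1 : Γ)) = fun s j =>
      (1 : Matrix (Fin ((B (τ s)).n j)) (Fin ((B (τ s)).n j)) ℚ_[ℓ]) := by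
    funext s j
    exact map_one _
  rw [h1]
  exact ((t_KUN S (fun s j => (B (τ s)).n j) (fun s => d (τ s)) i).1 ℚ_[ℓ] (fun s j => 1)
    (fun s j => 1)).2.1

theorem kunRep_mul (σ σ' : Γ) :
    kunRep B G τ i (σ * σ') = kunRep B G τ i σ * kunRep B G τ i σ' := by
  unfold kunRep
  rw [((t_KUN S (fun s j => (B (τ s)).n j) (fun s => d (τ s)) i).1 ℚ_[ℓ] _ _).1]
  congr 1
  funext s j
  exact map_mul _ _ _

end galois

end

end Run7.h615.MT
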