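import Pool.Agent.Run7.h615.MT.So
import Pool.Agent.Run7.h457.MT.Iface

/-!
# Project MT457, piece P2
-/

set_option autoImplicit false

namespace Run7.h615.MT

open Run7.h457.MT

theorem t_WEYL : S_WEYL := by
  intro K V W _ _ _ _ _ _ _ _ _ q hs hn h3 ρ hρ N hN
  exact weyl hs hn h3 ρ hρ N hN

theorem t_NILZ : S_NILZ := by
  intro K V W _ _ _ _ _ _ _ _ _ q hs hn h3 ρ hρ T hT hc hz
  exact nilz hs hn h3 ρ hρ T hT hc hz

end Run7.h615.MT
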